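import Pool.Agent.DQ2.Stmts

set_option autoImplicit false

open MvPolynomial

namespace Pool.Agent.DQ2.H34

open Pool.Agent.DQ2

theorem trp (fld : FLD) : TRP := by
  intro n d k hd hk P φ α h0 h1 E _ _ s hs hP
  obtain ⟨hm, hdeg, hirr⟩ := fld n d k hd hk
  have hmK : (fK n d k).Monic := hm.map _
  have hmin : fK n d k = minpoly (LDP.KK n d) s := minpoly.eq_of_irreducible_of_monic hirr hs hmK
  have hdvd : fK n d k ∣ P.map (algebraMap (LDP.AA n d) (LDP.KK n d)) := by
    rw [hmin]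
    exact minpoly.dvd _ _ hP
  have hdvd' : fk n d k ∣ P := by
    have := (Polynomial.map_dvd_map (algebraMap (LDP.AA n d) (LDP.KK n d))
      (IsFractionRing.injective (LDP.AA n d) (LDP.KK n d)) hm).1 hdvd
    exact this
  obtain ⟨Q, hQ⟩ := hdvd'
  apply h1
  rw [hQ, Polynomial.eval₂_mul, h0, zero_mul]

end Pool.Agent.DQ2.H34
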